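import Pool.Agent.R447.HN.Hit

/-!
# The hitting number of complete regular matroids is not polynomially bounded

Q1 of MP_ed59c7_co asks whether there is a polynomial `p` such that every complete regular matroid
`M` of rank `r` satisfies `h(M) ≤ p(r)`.  There is none.  For every `m ≥ 1` the regular matroid obtained
from the cycle matroid of `K_{3m+1}` by gluing (3-sums keeping the triangles) `m` copies of
`M*(K_{3,3})` along `m` disjoint triangles is complete, simple, has rank `5 m`, and its hitting
number is at least `(3/2)^m`.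

Definitions (module `Pool.Agent.R447.HN.Defs`): the matroid of a real matrix `A` with rows `R` and
columns `E` is its column matroid; `rk`, `IsBase`, `IsFlat`, `basePolytope`, `face`, `IsFlacet`,
`IsHittingFamily`, `hittingNumber`, `IsComplete`, `IsCompleteRegular`.
-/

namespace Pool.R447.HN

open Matrix Filter Topology

theorem poly_lt_exp (p : Polynomial ℝ) : ∃ m : ℕ, 0 < m ∧
    p.eval ((5 * m : ℕ) : ℝ) * 2 ^ m < 3 ^ m := by
  set q : Polynomial ℝ := p.comp (Polynomial.C 5 * Polynomial.X) with hq
  have h1 : Tendsto (fun m : ℕ => q.eval (m : ℝ) / (3 / 2 : ℝ) ^ m) atTop (𝓝 0) := by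
    have h2 : ∀ m : ℕ, q.eval (m : ℝ) / (3 / 2 : ℝ) ^ m
        = ∑ i ∈ Finset.range (q.natDegree + 1), q.coeff i * ((m : ℝ) ^ i / (3 / 2 : ℝ) ^ m) := by
      intro m
      rw [Polynomial.eval_eq_sum_range, Finset.sum_div]
      exact Finset.sum_congr rfl fun i _ => by ring
    have h3 : Tendsto (fun m : ℕ => ∑ i ∈ Finset.range (q.natDegree + 1),
        q.coeff i * ((m : ℝ) ^ i / (3 / 2 : ℝ) ^ m)) atTop
        (𝓝 (∑ i ∈ Finset.range (q.natDegree + 1), q.coeff i * 0)) := by
      apply tendsto_finsetSum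
      intro i _
      exact (tendsto_pow_const_div_const_pow_of_one_lt i (by norm_num)).const_mul _
    simp only [mul_zero, Finset.sum_const_zero] at h3
    exact h3.congr fun m => (h2 m).symm
  have h4 := (h1.eventually (gt_mem_nhds (show (0:ℝ) < 1 by norm_num))).and (eventually_ge_atTop 1)
  obtain ⟨m, hm, hm1⟩ := h4.exists
  refine ⟨m, hm1, ?_⟩
  have h5 : (0:ℝ) < (3 / 2) ^ m := by positivity
  rw [div_lt_one h5] at hm
  have h6 : q.eval (m : ℝ) = p.eval ((5 * m : ℕ) : ℝ) := by
    rw [hq, Polynomial.eval_comp]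
    simp
  rw [h6, div_pow, lt_div_iff₀ (by positivity)] at hm
  exact hm

end Pool.R447.HN

namespace Pool.Agent.Results.MP_ed59c7_co.ExponentialHittingNumber

open Pool.R447.HN

/-- **Negative answer to Q1.** (a) For every `m ≥ 1` there is a totally unimodular real matrix `A`
of full row rank `5 m`, without zero columns and without parallel columns, which is complete
(maximally totally unimodular) and whose column matroid has hitting number `h` with
`(3/2)^m ≤ h`, i.e. `3 ^ m ≤ h * 2 ^ m`.  (b) There is no polynomial `p` such that `h(M) ≤ p(r)` for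
all complete regular matroids `M` of rank `r`. -/
theorem result :
    (∀ m : ℕ, 0 < m → ∃ (R E : Type) (_ : Fintype R) (_ : Fintype E) (A : Matrix R E ℝ),
      IsCompleteRegular A ∧ (∀ (e e' : E) (c : ℝ), A.col e = c • A.col e' → e = e') ∧
      rk A Set.univ = 5 * m ∧ 3 ^ m ≤ hittingNumber A * 2 ^ m) ∧
    ¬ ∃ p : Polynomial ℝ, ∀ (R E : Type) (_ : Fintype R) (_ : Fintype E) (A : Matrix R E ℝ),
      IsCompleteRegular A → (hittingNumber A : ℝ) ≤ p.eval (rk A Set.univ : ℝ) := by
  refine ⟨fun m hm => ⟨Rw m, El m, inferInstance, inferInstance, Am m, Am_completeRegular hm,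
    fun e e' c h => Am_simple h, by rw [rk_univ, card_Rw], hittingNumber_ge hm⟩, ?_⟩
  rintro ⟨p, hp⟩
  obtain ⟨m, hm, hlt⟩ := poly_lt_exp p
  have h1 := hp (Rw m) (El m) inferInstance inferInstance (Am m) (Am_completeRegular hm)
  rw [rk_univ, card_Rw] at h1
  have h2 := hittingNumber_ge hm
  have h3 : (3:ℝ) ^ m ≤ (hittingNumber (Am m) : ℝ) * 2 ^ m := by exact_mod_cast h2
  have h4 : (hittingNumber (Am m) : ℝ) * 2 ^ m ≤ p.eval ((5 * m : ℕ) : ℝ) * 2 ^ m :=
    mul_le_mul_of_nonneg_right h1 (by positivity)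
  linarith

end Pool.Agent.Results.MP_ed59c7_co.ExponentialHittingNumber
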